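import Pool.Agent.H37.Mx3

set_option autoImplicit false

open Pool.Agent.H37 Pool.Agent.H37.Mx Pool.Agent.H37.Attr

/-- The degrees of maximal c.e. ideals are exactly the c.e. degrees. -/
theorem Pool.Agent.Results.MP_460ee8_lc.All.result (B : Type) [BooleanAlgebra B] [Nontrivial B]
    (hB : ∀ a : B, ¬ IsAtom a) (Q : Pres B) (A : ℕ → Bool) :
    (∃ I, Maximal Q I ∧ TuringEquivalent (ora (codes Q I)) (ora A)) ↔ CEDeg A :=
  ⟨fun ⟨I, h1, h2⟩ => ⟨codes Q I, h1.1.of_eq fun n => by simp [codes], h2⟩, fun ⟨_, h1, h2⟩ =>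
    let ⟨I, a1, a2, a3⟩ := main Q hB h1
    ⟨I, a1, TuringEquivalent.trans _ _ _ ⟨Hd.tr_iff.2 a2, Hd.tr_iff.2 a3⟩ h2⟩⟩
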